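import Mathlib
import Pool.Agent.N964.GW.Stm
import Pool.Agent.N964.GX.E1

set_option autoImplicit false

/-!
# Project GV: zero-free half-planes, the better exponent: the statements of the parts

For an L-function of degree `k` without zeros right of `θ = 1/2 + κ`, `κ > 0`, the prime polynomial has smaller
coefficients (`p^(-θ)` instead of `p^(-1/2)`), so that the mean of `1/|F(θ + δ + it)|` is at most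
`exp(δ^(-ν) log(1/δ)^4)` with `ν = k (1 - θ)/θ` instead of `k`.
-/

namespace Pool.Agent.N964.GV

open Complex MeasureTheory Filter
open Pool.Agent.N964.MX (Dd kk ww Pl cc th cp wt kq)
open Pool.Agent.N964.GX (PSa PA al)
open Pool.Agent.N964.GW (sh)
open Pool.Agent.Y23 (Lg)

/-- the size of the mean -/
noncomputable def Xv (ν B δ : ℝ) : ℝ := (1 / δ) ^ ν * Real.log (1 / δ) ^ B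

/-- the exponent in the final bound -/
noncomputable def Qv (E B x : ℝ) : ℝ := Real.log x ^ E * Real.log (Real.log x) ^ B

/-- the exponent of the mean -/
noncomputable def nu (k : ℕ) (κ : ℝ) : ℝ := k * (1 / 2 - κ) / (1 / 2 + κ)

/-- the data used below -/
structure DatK (k : ℕ) (κ C : ℝ) (F : ℂ → ℂ) (a : ℕ → ℂ) : Prop where
  hk : 1 ≤ k
  hκ0 : 0 < κ
  hκ1 : κ < 1 / 2
  pos : 3 ≤ C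
  main : ∀ t δ l : ℝ, C ≤ t → 0 < δ → δ ≤ 1 → 1 ≤ l → Real.exp (8 * l) ≤ t →
    ‖F (1 / 2 + δ + t * I)‖⁻¹ ≤ Real.exp (k * Lg t / l * Dd l δ + C * (1 + Real.log l + Dd l δ) + ‖PA a l δ t‖)
  ccb : ∀ l δ : ℝ, 1 ≤ l → 0 < δ → δ ≤ 1 → ∀ p ∈ Pl l, 0 ≤ cc l δ p ∧ cc l δ p ≤ C * (1 + Dd l δ) / Real.sqrt p
  mom : ∀ (X k : ℕ) (c : ℕ → ℂ) (T : ℝ), 1 ≤ T → (X : ℝ) ^ k ≤ T →
    ∫ t in (-T)..T, ‖∑ p ∈ (Finset.range (X + 1)).filter Nat.Prime, c p * (p : ℂ) ^ (-(t : ℂ) * I)‖ ^ (2 * k) ≤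
      C * T * k.factorial * (∑ p ∈ (Finset.range (X + 1)).filter Nat.Prime, ‖c p‖ ^ 2) ^ k
  ala : ∀ p : ℕ, p.Prime → ‖al a p‖ ≤ k * (p : ℝ) ^ (-κ)
  cont : ∀ δ : ℝ, 0 < δ → ContinuousOn (fun t : ℝ => ‖F (1 / 2 + δ + t * I)‖⁻¹) (Set.Ici 1)

/-- the part `p > y` of the prime polynomial -/
noncomputable def PLy (a : ℕ → ℂ) (l δ y t : ℝ) : ℂ :=
  ∑ p ∈ (Pl l).filter (fun p : ℕ => y < p), (((cc l δ p : ℝ) : ℂ) * al a p) * (p : ℂ) ^ (-(t : ℂ) * I)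

/-- GV/A: the square sum of the part `p > y`, the part `p ≤ y`, and a trivial bound -/
def S_var : Prop := ∀ (k : ℕ) (κ C : ℝ) (F : ℂ → ℂ) (a : ℕ → ℂ), DatK k κ C F a →
  ∃ B : ℝ, 1 ≤ B ∧ ∀ l δ y t : ℝ, 1 ≤ l → 0 < δ → δ ≤ 1 → 1 ≤ y →
    (∑ p ∈ (Pl l).filter (fun p : ℕ => y < p), ‖((cc l δ p : ℝ) : ℂ) * al a p‖ ^ 2 ≤
      B * (1 + Dd l δ) ^ 2 * y ^ (-(2 * κ))) ∧
    ‖PA a l δ t‖ ≤ ‖PLy a l δ y t‖ + B * (1 + Dd l δ) * y ^ (1 / 2 - κ) ∧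
    ‖PLy a l δ y t‖ ≤ B * (1 + Dd l δ) * Real.exp l

/-- GV/B: the terms of the sum over the levels -/
def S_num : Prop := ∀ (k : ℕ) (κ B : ℝ), 1 ≤ k → 0 < κ → 1 ≤ B → ∃ C δ0 : ℝ, 0 < C ∧ 0 < δ0 ∧ δ0 ≤ 1 / 4 ∧
  ∀ (δ τ y : ℝ) (V : ℕ), 0 < δ → δ ≤ δ0 → 1 ≤ V → (V : ℝ) ≤ τ → 1 ≤ y →
  (1 / δ) ^ k * Real.log (1 / δ) ^ 3 / τ ≤ y ^ (2 * κ) →
  Real.exp (k * ((V : ℝ) + 1) * Real.log (1 + ((V : ℝ) + 1) / (τ * δ)) + ((V : ℝ) + 1)) *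
    (B * Real.log (1 / δ) ^ 2 * y ^ (-(2 * κ)) / V) ^ V ≤ Real.exp (C * Real.log (1 / δ) ^ 2)

/-- GV/C: the block bound for small `δ` -/
def S_blk : Prop := ∀ (k : ℕ) (κ C : ℝ) (F : ℂ → ℂ) (a : ℕ → ℂ), DatK k κ C F a →
  ∃ K δ0 : ℝ, 0 < K ∧ 0 < δ0 ∧ δ0 ≤ 1 / 4 ∧ ∀ T δ : ℝ, 5 * C ≤ T → 0 < δ → δ ≤ δ0 →
    Xv (nu k κ) 3 δ ≤ Lg T → Lg T ≤ 1 / δ ^ (k + 2) →
    ∃ R : ℝ → ℝ, Continuous R ∧ (∀ t, 0 ≤ R t) ∧ (∀ t : ℝ, T / 2 ≤ t → t ≤ T → ‖F (1 / 2 + δ + t * I)‖⁻¹ ≤ R t) ∧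
      ∫ t in (-(3 + T))..(3 + T), R t ≤ T * Real.exp (K * Xv (nu k κ) 4 δ)

/-- GV/D: the mean with the weight of Perron's formula -/
def S_finv : Prop := ∀ (k : ℕ) (ν B : ℝ) (g : ℝ → ℝ) (K δ0 : ℝ), 1 ≤ k → 0 < ν → ν ≤ k → 1 ≤ B → 3 ≤ K → 0 < δ0 →
  δ0 ≤ 1 / 4 →
  ∀ M : ℝ → ℝ → ℝ, (∀ δ t : ℝ, 0 ≤ M δ t) → (∀ δ : ℝ, 0 < δ → δ ≤ 1 / 4 → Continuous (M δ)) →
  (∀ δ y : ℝ, 0 < δ → δ ≤ 1 / 4 → 1 ≤ y → Integrable (fun t : ℝ => M δ t * wt y t) ∧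
    g y ≤ K * Real.sqrt y + K * y ^ (1 / 2 + δ) * ∫ t : ℝ, M δ t * wt y t) →
  (∀ y : ℝ, 1 ≤ y → g y ≤ K * y ^ 2) →
  (∀ δ t : ℝ, 0 < δ → δ ≤ δ0 → |t| ≤ K → M δ t ≤ Real.exp (K * (1 + Real.log (1 / δ)))) →
  (∀ δ T : ℝ, 0 < δ → δ ≤ δ0 → K ≤ T → Lg T ≤ 1 / δ ^ (k + 2) →
    (∫ t in K..T, M δ t) ≤ T * Real.exp (K * Xv ν B δ) ∧ (∫ t in (-T)..(-K), M δ t) ≤ T * Real.exp (K * Xv ν B δ)) →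
  (∀ δ t : ℝ, 0 < δ → δ ≤ δ0 → 3 ≤ |t| → 1 / δ ^ (k + 2) ≤ Lg t → M δ t ≤ |t| ^ (1 - 1 / ((k : ℝ) + 2))) →
  ∃ C : ℝ, 0 < C ∧ ∀ x : ℝ, 3 ≤ x → g x ≤ Real.sqrt x * Real.exp (C * Qv (ν / (1 + ν)) B x)

/-- GV/E: partial summation -/
def S_pstv : Prop := ∀ (κ E B : ℝ) (b : ℕ → ℂ), 0 ≤ κ → κ ≤ 1 / 2 → 0 < E → E < 1 → 1 ≤ B →
  ((∃ C : ℝ, ∀ x : ℝ, 3 ≤ x → ‖∑ n ∈ Finset.Icc 1 ⌊x⌋₊, sh κ b n‖ ≤ Real.sqrt x * Real.exp (C * Qv E B x)) ↔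
    (∃ C : ℝ, ∀ x : ℝ, 3 ≤ x → ‖∑ n ∈ Finset.Icc 1 ⌊x⌋₊, b n‖ ≤ x ^ (1 / 2 + κ) * Real.exp (C * Qv E B x)))

/-- GV/F: the bound implies the bound with `x^e` -/
def S_ev : Prop := ∀ (E B : ℝ) (b : ℕ → ℂ), 0 < E → E < 1 → 1 ≤ B →
  (∃ C : ℝ, ∀ x : ℝ, 3 ≤ x → ‖∑ n ∈ Finset.Icc 1 ⌊x⌋₊, b n‖ ≤ Real.sqrt x * Real.exp (C * Qv E B x)) →
  ∀ e : ℝ, 0 < e → (fun x : ℝ => ∑ n ∈ Finset.Icc 1 ⌊x⌋₊, b n) =O[atTop] fun x : ℝ => x ^ (1 / 2 + e)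

end Pool.Agent.N964.GV
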