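import Mathlib
import Pool.Agent.N964.GV.Stm
import Pool.Agent.N964.GW.LW
import Pool.Agent.N964.GW.Fin

set_option autoImplicit false

/-!
# Project GV: the mean and the direct part
-/

namespace Pool.Agent.N964.GV

open Complex MeasureTheory Filter
open Pool.Agent.N964
open Pool.Agent.N964.MX (Dd kk ww Pl cc th cp wt kq mem_Pl Pl_mono th_le th_self g_nonneg g_le_half norm_ppow Dd_nonneg Dd_le
  ell_ge Lg_mono log_mem pow_two_ge_one first_good2 sum_w_le)
open Pool.Agent.N964.GX (PSa PA al Pa Dat pt_one log_small)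
open Pool.Agent.N964.GW
open Pool.Agent.Y23 (Lg)

lemma nu_nonneg {k : ℕ} {κ : ℝ} (h0 : 0 ≤ κ) (h1 : κ < 1 / 2) : 0 ≤ nu k κ := by
  unfold nu
  have : 0 ≤ 1 / 2 - κ := by linarith
  positivity

lemma datk_of {k : ℕ} {A : ℝ} {F : ℂ → ℂ} {a : ℕ → ℂ} {κ : ℝ} (h : LQ k A F a)
    (hr : ∀ n : ℕ, ‖a n‖ ≤ k * ArithmeticFunction.vonMangoldt n * (n : ℝ) ^ (-κ)) (hκ0 : 0 < κ) (hκ1 : κ < 1 / 2) :
    ∃ C : ℝ, DatK k κ C F a := by
  obtain ⟨C1, D⟩ := dat_q Pool.Agent.N99.MXD.coef Pool.Agent.N607.GXB.momc h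
  obtain ⟨C2, hC2, H2⟩ := Pool.Agent.N99.MXD.coef
  have hC1 := D.pos
  refine ⟨C1 + C2, ⟨D.hk, hκ0, hκ1, by linarith, fun t δ l ht hδ hδ1 hl hlt => ?_, fun l δ hl hδ hδ1 p hp => ?_,
    fun X k c T hT hX => ?_, fun p hp => ?_, D.cont⟩⟩
  · refine (D.main t δ l (by linarith) hδ hδ1 hl hlt).trans (Real.exp_le_exp.2 ?_)
    have h5 : 0 ≤ 1 + Real.log l + Dd l δ := by
      have := Real.log_nonneg hl
      have := Dd_nonneg (by linarith : 0 < l) hδ
      linarith
    nlinarith
  · rw [mem_Pl] at hp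
    have hp1 : (1 : ℝ) < p := by exact_mod_cast hp.2.one_lt
    have hlp : 0 < Real.log p := Real.log_pos hp1
    have hll : Real.log p ≤ l := log_mem hp.2.one_lt.le hp.1
    obtain ⟨w1, w2⟩ := (H2 l δ hl hδ hδ1).1 (Real.log p) hlp hll
    have hsq : 0 < Real.sqrt p := Real.sqrt_pos.2 (by linarith)
    have hD := Dd_nonneg (by linarith : 0 < l) hδ
    unfold Pool.Agent.N964.MX.cc
    refine ⟨mul_nonneg (div_nonneg hlp.le hsq.le) w1, ?_⟩
    rw [div_mul_eq_mul_div]
    refine div_le_div_of_nonneg_right ?_ hsq.le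
    have e1 : Real.log p * (C2 * (1 / Real.log p + Dd l δ / l)) = C2 * (1 + Real.log p / l * Dd l δ) := by
      field_simp
    have e2 : Real.log p / l * Dd l δ ≤ 1 * Dd l δ := by
      refine mul_le_mul_of_nonneg_right ?_ hD
      rw [div_le_one (by linarith)]
      exact hll
    calc Real.log p * ww l δ (Real.log p) ≤ Real.log p * (C2 * (1 / Real.log p + Dd l δ / l)) :=
          mul_le_mul_of_nonneg_left w2 hlp.le
      _ = C2 * (1 + Real.log p / l * Dd l δ) := e1
      _ ≤ (C1 + C2) * (1 + Dd l δ) := by nlinarith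
  · refine (D.mom X k c T hT hX).trans ?_
    have h5 : 0 ≤ T * k.factorial * (∑ p ∈ (Finset.range (X + 1)).filter Nat.Prime, ‖c p‖ ^ 2) ^ k := by
      have : 0 ≤ ∑ p ∈ (Finset.range (X + 1)).filter Nat.Prime, ‖c p‖ ^ 2 :=
        Finset.sum_nonneg fun p _ => sq_nonneg _
      positivity
    calc C1 * T * k.factorial * (∑ p ∈ (Finset.range (X + 1)).filter Nat.Prime, ‖c p‖ ^ 2) ^ k =
        C1 * (T * k.factorial * (∑ p ∈ (Finset.range (X + 1)).filter Nat.Prime, ‖c p‖ ^ 2) ^ k) := by ring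
      _ ≤ (C1 + C2) * (T * k.factorial * (∑ p ∈ (Finset.range (X + 1)).filter Nat.Prime, ‖c p‖ ^ 2) ^ k) := by
        nlinarith
      _ = _ := by ring
  · unfold Pool.Agent.N964.GX.al
    have h1 := hr p
    rw [ArithmeticFunction.vonMangoldt_apply_prime hp] at h1
    have h2 : 0 < Real.log p := Real.log_pos (by exact_mod_cast hp.one_lt)
    rw [norm_div, Complex.norm_real, Real.norm_eq_abs, abs_of_pos h2, div_le_iff₀ h2]
    linarith

theorem mean_v (hblk : S_blk) {k : ℕ} {A : ℝ} {F : ℂ → ℂ} {a : ℕ → ℂ} {κ : ℝ} (h : LQ k A F a)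
    (hr : ∀ n : ℕ, ‖a n‖ ≤ k * ArithmeticFunction.vonMangoldt n * (n : ℝ) ^ (-κ)) (hκ0 : 0 < κ) (hκ1 : κ < 1 / 2) :
    ∃ C δ0 : ℝ, 3 ≤ C ∧ 0 < δ0 ∧ δ0 ≤ 1 / 4 ∧ ∀ T δ : ℝ, C ≤ T → 0 < δ → δ ≤ δ0 → Lg T ≤ 1 / δ ^ (k + 2) →
    ∫ t in C..T, ‖F (1 / 2 + δ + t * I)‖⁻¹ ≤ T * Real.exp (C * Xv (nu k κ) 4 δ) := by
  obtain ⟨C, D⟩ := dat_q Pool.Agent.N99.MXD.coef Pool.Agent.N607.GXB.momc h
  obtain ⟨C', D'⟩ := datk_of h hr hκ0 hκ1
  obtain ⟨K, δ0, hK, hδ00, hδ04, HK⟩ := hblk k κ C' F a D'
  have hC := D.pos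
  have hC0 : 0 < C := by linarith
  have hC' := D'.pos
  have hk1 : (1 : ℝ) ≤ k := by exact_mod_cast D.hk
  set M := K + 2 * k + (3 + 6 * k) * C with hM
  have hM0 : 0 < M := by positivity
  set S := 5 * (C + C') + Real.exp 8 with hS
  have he8 : 0 < Real.exp 8 := Real.exp_pos _
  have hS15 : 15 ≤ S := by linarith
  have hd0 : 0 < min δ0 (Real.exp (-400)) := lt_min hδ00 (Real.exp_pos _)
  refine ⟨M + 1 + S, min δ0 (Real.exp (-400)), by linarith, hd0, (min_le_left _ _).trans hδ04, fun T δ hT hδ hδd' hLT => ?_⟩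
  have hδd : δ ≤ δ0 := hδd'.trans (min_le_left _ _)
  have hδ4 : δ ≤ 1 / 4 := hδd.trans hδ04
  have hℓ := ell_ge hδ hδ4
  set m := Real.log (1 / δ) with hm
  have hm400 : 400 ≤ m := by
    rw [hm, Real.le_log_iff_exp_le (by positivity), le_div_iff₀ hδ]
    calc Real.exp 400 * δ ≤ Real.exp 400 * Real.exp (-400) := by
          gcongr
          exact hδd'.trans (min_le_right _ _)
      _ = 1 := by rw [← Real.exp_add]; simp
  have hmp : 0 < m := by linarith
  set X := Xv (nu k κ) 4 δ with hX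
  have hν : 0 ≤ nu k κ := nu_nonneg (by linarith) hκ1
  have hX3 : Xv (nu k κ) 3 δ = X / m := by
    rw [hX]
    unfold Xv
    rw [← hm, mul_div_assoc]
    congr 1
    rw [show (4 : ℝ) = 3 + 1 by norm_num, Real.rpow_add hmp, Real.rpow_one]
    field_simp
  have h1δ : 1 ≤ (1 / δ) ^ (nu k κ) := Real.one_le_rpow (by rw [le_div_iff₀ hδ]; linarith) hν
  have hXm200 : 200 ≤ X / m := by
    rw [← hX3]
    unfold Xv
    rw [← hm]
    have h5 : 200 ≤ m ^ (3 : ℝ) := by
      have : m ^ (3 : ℝ) = m ^ 3 := by norm_cast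
      rw [this]
      nlinarith [sq_nonneg (m - 1), mul_pos hmp hmp]
    have h6 : 0 ≤ m ^ (3 : ℝ) := by linarith
    nlinarith
  have hmX : m ≤ X := by
    rw [le_div_iff₀ hmp] at hXm200
    nlinarith
  have hX0 : 0 < X := by linarith
  set g : ℝ → ℝ := fun t => ‖F (1 / 2 + δ + t * I)‖⁻¹ with hg
  have hgc : ContinuousOn g (Set.Ici 1) := D.cont δ hδ
  have hg0 : ∀ t, 0 ≤ g t := fun t => inv_nonneg.2 (norm_nonneg _)
  have hgi : ∀ u v : ℝ, 1 ≤ u → 1 ≤ v → IntervalIntegrable g volume u v := by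
    intro u v hu hv
    refine (hgc.mono ?_).intervalIntegrable
    intro x hx
    rw [Set.mem_uIcc] at hx
    rw [Set.mem_Ici]
    rcases hx with hx | hx <;> linarith [hx.1]
  have hpt : ∀ T t : ℝ, Lg T ≤ X / m → S ≤ t → t ≤ T → g t ≤ Real.exp (M * X) := by
    intro T t h6 h7 h8
    refine (pt_one D hδ hδ4 (by linarith) (by linarith)).trans (Real.exp_le_exp.2 ?_)
    rw [← hm]
    have h9 : Lg t ≤ Lg T := Lg_mono (by rw [abs_of_nonneg (by linarith)]; exact h8)
    have h10 : (2 * k * Lg t + (3 + 6 * k) * C) * m ≤ (2 * k * (X / m) + (3 + 6 * k) * C) * m := by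
      gcongr
      linarith
    have h11 : (2 * k * (X / m) + (3 + 6 * k) * C) * m = 2 * k * X + (3 + 6 * k) * C * m := by field_simp
    have h12 : (3 + 6 * k) * C * m ≤ (3 + 6 * k) * C * X := by gcongr
    have h13 : 0 ≤ K * X := by positivity
    rw [hM]
    nlinarith
  have key : ∀ n : ℕ, ∀ T : ℝ, S ≤ T → T ≤ S * 2 ^ n → Lg T ≤ 1 / δ ^ (k + 2) → ∫ t in S..T, g t ≤ 2 * T * Real.exp (M * X) := by
    intro n
    induction n with
    | zero =>
      intro T hT hT3 _
      have : T = S := le_antisymm (by simpa using hT3) hT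
      rw [this, intervalIntegral.integral_same]
      positivity
    | succ n ih =>
      intro T hT hTn hLT
      have hT0 : 0 < T := by linarith
      rcases le_or_gt (Lg T) (X / m) with h4 | h4
      · have i1 : ∫ t in S..T, g t ≤ ∫ t in S..T, Real.exp (M * X) := by
          refine intervalIntegral.integral_mono_on hT (hgi _ _ (by linarith) (by linarith)) (continuous_const.intervalIntegrable _ _) ?_
          intro t ht
          exact hpt T t h4 ht.1 ht.2
        rw [intervalIntegral.integral_const, smul_eq_mul] at i1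
        refine i1.trans (mul_le_mul_of_nonneg_right ?_ (Real.exp_pos _).le)
        linarith
      · obtain ⟨R, hR1, hR2, hR3, hR4⟩ := HK T δ (by linarith) hδ hδd (by rw [hX3]; exact h4.le) hLT
        rw [← hX] at hR4
        have h7 : T * Real.exp (K * X) ≤ T * Real.exp (M * X) := by
          refine mul_le_mul_of_nonneg_left (Real.exp_le_exp.2 ?_) (by linarith)
          refine mul_le_mul_of_nonneg_right ?_ hX0.le
          have : 0 ≤ (3 + 6 * (k : ℝ)) * C := by positivity
          rw [hM]; linarith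
        have hblk : ∀ u : ℝ, T / 2 ≤ u → 1 ≤ u → u ≤ T → ∫ t in u..T, g t ≤ T * Real.exp (K * X) := by
          intro u hu hu1 huT
          have i2 : ∫ t in u..T, g t ≤ ∫ t in u..T, R t := by
            refine intervalIntegral.integral_mono_on huT (hgi _ _ hu1 (by linarith)) (hR1.intervalIntegrable _ _) ?_
            intro t ht
            exact hR3 t (by linarith [ht.1]) ht.2
          have i3 : ∫ t in u..T, R t ≤ ∫ t in (-(3 + T))..(3 + T), R t := by
            have s1 : ∀ a b : ℝ, a ≤ b → 0 ≤ ∫ t in a..b, R t := fun a b hab =>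
              intervalIntegral.integral_nonneg hab fun t _ => hR2 t
            have s2 : ∫ t in (-(3 + T))..(3 + T), R t = (∫ t in (-(3 + T))..u, R t) + (∫ t in u..T, R t) + (∫ t in T..(3 + T), R t) := by
              rw [intervalIntegral.integral_add_adjacent_intervals (hR1.intervalIntegrable _ _) (hR1.intervalIntegrable _ _),
                intervalIntegral.integral_add_adjacent_intervals (hR1.intervalIntegrable _ _) (hR1.intervalIntegrable _ _)]
            rw [s2]
            have := s1 (-(3 + T)) u (by linarith)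
            have := s1 T (3 + T) (by linarith)
            linarith
          linarith
        rcases le_or_gt (T / 2) S with h5 | h5
        · have := hblk S h5 (by linarith) hT
          have h8 : 0 ≤ T * Real.exp (M * X) := by positivity
          linarith
        · have hLL : Lg (T / 2) ≤ Lg T := Lg_mono (by rw [abs_of_nonneg (by linarith)]; linarith)
          have h6 := ih (T / 2) h5.le (by rw [pow_succ] at hTn; linarith) (hLL.trans hLT)
          have h8 := hblk (T / 2) le_rfl (by linarith) (by linarith)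
          have s2 : ∫ t in S..T, g t = (∫ t in S..(T / 2), g t) + (∫ t in (T / 2)..T, g t) := by
            rw [intervalIntegral.integral_add_adjacent_intervals (hgi _ _ (by linarith) (by linarith)) (hgi _ _ (by linarith) (by linarith))]
          rw [s2]
          linarith
  have hT' : S ≤ T := by linarith
  obtain ⟨n, hn⟩ := pow_unbounded_of_one_lt T (one_lt_two)
  have h7 := key n T hT' (by
    have : (0 : ℝ) < 2 ^ n := by positivity
    nlinarith) hLT
  have h8 : ∫ t in (M + 1 + S)..T, g t ≤ ∫ t in S..T, g t := by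
    have s2 : ∫ t in S..T, g t = (∫ t in S..(M + 1 + S), g t) + (∫ t in (M + 1 + S)..T, g t) := by
      rw [intervalIntegral.integral_add_adjacent_intervals (hgi _ _ (by linarith) (by linarith)) (hgi _ _ (by linarith) (by linarith))]
    have s1 : 0 ≤ ∫ t in S..(M + 1 + S), g t := intervalIntegral.integral_nonneg (by linarith) fun t _ => hg0 t
    rw [s2]
    linarith
  refine h8.trans (h7.trans ?_)
  have h9 : 2 ≤ Real.exp X := by
    have := Real.add_one_le_exp X
    linarith
  have h10 : 2 * T * Real.exp (M * X) ≤ T * (Real.exp X * Real.exp (M * X)) := by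
    have h11 := Real.exp_pos (M * X)
    nlinarith [mul_le_mul_of_nonneg_right h9 (mul_nonneg (by linarith : 0 ≤ T) h11.le)]
  refine h10.trans (mul_le_mul_of_nonneg_left ?_ (by linarith))
  rw [← Real.exp_add, Real.exp_le_exp]
  nlinarith [mul_pos (by linarith : 0 < S) hX0]


end Pool.Agent.N964.GV
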