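import Mathlib
import Pool.Agent.N964.GV.M

set_option autoImplicit false

/-!
# Project GV: the direct part
-/

namespace Pool.Agent.N964.GV

open Complex MeasureTheory Filter
open Pool.Agent.N964
open Pool.Agent.N964.MX (wt)
open Pool.Agent.N964.GX (Dat pt_one log_small)
open Pool.Agent.N964.GW
open Pool.Agent.Y23 (Lg)

lemma nu_pos {k : ℕ} {κ : ℝ} (hk : 1 ≤ k) (h0 : 0 ≤ κ) (h1 : κ < 1 / 2) : 0 < nu k κ := by
  unfold nu
  have h2 : 0 < 1 / 2 - κ := by linarith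
  have h3 : (1 : ℝ) ≤ k := by exact_mod_cast hk
  positivity

lemma nu_le {k : ℕ} {κ : ℝ} (h0 : 0 ≤ κ) (h1 : κ < 1 / 2) : nu k κ ≤ k := by
  unfold nu
  have hk : (0 : ℝ) ≤ k := Nat.cast_nonneg k
  rw [div_le_iff₀ (by linarith)]
  nlinarith

theorem dirv (hblk : S_blk) (hfin : S_finv) {k r : ℕ} {A p : ℝ} {F F' E : ℂ → ℂ} {a a' b : ℕ → ℂ}
    (H : LW k r A p F F' E a a' b) {κ : ℝ} (hκ0 : 0 < κ) (hκ1 : κ < 1 / 2)
    (hr : ∀ n : ℕ, ‖a n‖ ≤ k * ArithmeticFunction.vonMangoldt n * (n : ℝ) ^ (-κ))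
    (hr' : ∀ n : ℕ, ‖a' n‖ ≤ k * ArithmeticFunction.vonMangoldt n * (n : ℝ) ^ (-κ))
    (RH : ∀ s : ℂ, 1 / 2 < s.re → E s ≠ 0) :
    ∃ C : ℝ, 0 < C ∧ ∀ x : ℝ, 3 ≤ x → ‖∑ n ∈ Finset.Icc 1 ⌊x⌋₊, b n‖ ≤
      Real.sqrt x * Real.exp (C * Qv (nu k κ / (1 + nu k κ)) 4 x) := by
  have R1 := lq_of H RH
  have R2 := lq_of' H RH
  have hkk := H.good.hk
  have hk1 : (1 : ℝ) ≤ k := by exact_mod_cast hkk
  have hp1 := H.hp1
  obtain ⟨B, hB, hb⟩ := bbq H
  obtain ⟨Cp, hCp, hp⟩ := Pool.Agent.N521.GXF.per b (fip r p E) B hB hb (fip_diff H.ent RH) (by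
    intro s hs
    have hs1 : s ≠ p := by
      rintro rfl
      rw [Complex.ofReal_re] at hs
      linarith
    rw [fip_eq H hs1]
    exact inv_eq_of_mul_eq_one_right (H.hb s (by linarith))) (grq H RH)
  obtain ⟨C1, d1, hC1, hd1, hd14, m1⟩ := mean_v hblk R1 hr hκ0 hκ1
  obtain ⟨C2, d2, hC2, hd2, hd24, m2⟩ := mean_v hblk R2 hr' hκ0 hκ1
  obtain ⟨d3, hd3, hd34, t1⟩ := tailq R1
  obtain ⟨d4, hd4, hd44, t2⟩ := tailq R2
  obtain ⟨CD, D⟩ := dat_q Pool.Agent.N99.MXD.coef Pool.Agent.N607.GXB.momc R1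
  obtain ⟨CD', D'⟩ := dat_q Pool.Agent.N99.MXD.coef Pool.Agent.N607.GXB.momc R2
  have hCD := D.pos
  have hCD' := D'.pos
  have he8 := Real.exp_pos 8
  set R := CD + CD' + Real.exp 8 with hR
  obtain ⟨C4, hC4, hlow⟩ := lowq r H.hp0 H.hp1 H.ent RH R
  obtain ⟨K1, hK1⟩ := log_small (1 / (4 * k)) (by positivity)
  set K := |K1| + Cp + C1 + C2 + 2 * B + R + C4 + 2 * ((3 + 6 * k) * (CD + CD')) with hK
  have hcd0 : 0 < (3 + 6 * (k : ℝ)) * (CD + CD') := by positivity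
  have hK1' := abs_nonneg K1
  have hK1'' := le_abs_self K1
  have hlogK := hK1 K (by linarith)
  have hLgK : 2 * k * Real.log (3 + K) + (3 + 6 * k) * (CD + CD') ≤ K := by
    have h9 : 2 * k * Real.log (3 + K) ≤ K / 2 := by
      calc 2 * k * Real.log (3 + K) ≤ 2 * k * (1 / (4 * k) * K) := by gcongr
        _ = K / 2 := by field_simp; norm_num
    linarith
  have hcont : ∀ δ : ℝ, 0 < δ → Continuous (fun t : ℝ => ‖fip r p E (1 / 2 + δ + t * I)‖) := fun δ hδ =>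
    (fip_cont H.ent RH hδ).norm
  refine hfin k (nu k κ) 4 (fun y => ‖∑ n ∈ Finset.Icc 1 ⌊y⌋₊, b n‖) K (min (min d1 d2) (min d3 d4)) hkk
    (nu_pos hkk (by linarith) hκ1) (nu_le (by linarith) hκ1) (by norm_num) (by linarith)
    (lt_min (lt_min hd1 hd2) (lt_min hd3 hd4)) ((min_le_left _ _).trans ((min_le_left _ _).trans hd14))
    (fun δ t => ‖fip r p E (1 / 2 + δ + t * I)‖) (fun δ t => norm_nonneg _) (fun δ hδ _ => hcont δ hδ) ?_ ?_ ?_ ?_ ?_
  · -- Perron
    intro δ y hδ hδ4 hy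
    obtain ⟨i1, i2⟩ := hp δ y hδ hδ4 hy
    refine ⟨i1, i2.trans ?_⟩
    have hI : 0 ≤ ∫ t : ℝ, ‖fip r p E (1 / 2 + δ + t * I)‖ * wt y t :=
      integral_nonneg fun t => mul_nonneg (norm_nonneg _) (MX.wt_nonneg (by linarith) t)
    have hKp : Cp ≤ K := by linarith
    gcongr
  · -- trivial
    intro y hy
    have hy0 : 0 < y := by linarith
    refine (norm_sum_le _ _).trans ?_
    have i1 : ∀ n ∈ Finset.Icc 1 ⌊y⌋₊, ‖b n‖ ≤ B * y := by
      intro n hn
      rw [Finset.mem_Icc] at hn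
      have hn1 : (1 : ℝ) ≤ n := by exact_mod_cast hn.1
      have hny : (n : ℝ) ≤ y := (Nat.le_floor_iff hy0.le).1 hn.2
      refine (hb n hn.1).trans (mul_le_mul_of_nonneg_left ?_ hB.le)
      calc (n : ℝ) ^ (1 / 4 : ℝ) ≤ (n : ℝ) ^ (1 : ℝ) := Real.rpow_le_rpow_of_exponent_le hn1 (by norm_num)
        _ = n := Real.rpow_one _
        _ ≤ y := hny
    refine (Finset.sum_le_sum i1).trans ?_
    rw [Finset.sum_const, Nat.card_Icc, nsmul_eq_mul, Nat.add_sub_cancel]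
    have h9 : ((⌊y⌋₊ : ℕ) : ℝ) ≤ y := Nat.floor_le hy0.le
    calc ((⌊y⌋₊ : ℕ) : ℝ) * (B * y) ≤ y * (B * y) := by gcongr
      _ = B * y ^ 2 := by ring
      _ ≤ K * y ^ 2 := by
        refine mul_le_mul_of_nonneg_right ?_ (by positivity)
        linarith
  · -- small heights
    intro δ t hδ hδd ht
    have hδ4 : δ ≤ 1 / 4 := hδd.trans ((min_le_left _ _).trans ((min_le_left _ _).trans hd14))
    have hℓ := MX.ell_ge hδ hδ4
    have fin : ∀ G c, Dat k c G a ∨ Dat k c G a' → c ≤ CD + CD' → ∀ u : ℝ, R ≤ u → u ≤ K → ‖G (1 / 2 + δ + u * I)‖⁻¹ ≤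
        Real.exp (K * (1 + Real.log (1 / δ))) := by
      intro G c hG hcle u hu1 hu2
      have hc3 : 3 ≤ c := by rcases hG with hG | hG <;> exact hG.pos
      have hp1 : ‖G (1 / 2 + δ + u * I)‖⁻¹ ≤ Real.exp ((2 * k * Lg u + (3 + 6 * k) * c) * Real.log (1 / δ)) := by
        rcases hG with hG | hG <;> exact pt_one hG hδ hδ4 (by linarith) (by linarith)
      refine hp1.trans (Real.exp_le_exp.2 ?_)
      have hLg : Lg u ≤ Real.log (3 + K) := by
        unfold Pool.Agent.Y23.Lg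
        rw [abs_of_nonneg (by linarith)]
        exact Real.log_le_log (by linarith) (by linarith)
      have h9 : 2 * k * Lg u + (3 + 6 * k) * c ≤ K := by
        refine le_trans ?_ hLgK
        gcongr
      have h10 : (2 * k * Lg u + (3 + 6 * k) * c) * Real.log (1 / δ) ≤ K * Real.log (1 / δ) := by gcongr
      linarith
    rcases le_or_gt |t| R with h | h
    · refine (hlow t δ h hδ (by linarith)).trans (Real.exp_le_exp.2 ?_)
      have : C4 ≤ K := by linarith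
      gcongr
    · rcases le_or_gt 0 t with h0 | h0
      · rw [abs_of_nonneg h0] at h ht
        rw [fip_norm H (by linarith : 0 < t).ne']
        exact fin F CD (Or.inl D) (by linarith) t h.le ht
      · rw [abs_of_neg h0] at h ht
        have e := fip_norm' H (δ := δ) (t := -t) (by linarith : 0 < -t).ne'
        rw [neg_neg] at e
        rw [e]
        exact fin F' CD' (Or.inr D') (by linarith) (-t) h.le ht
  · -- means
    intro δ T hδ hδd hT hLT
    have hδ1 : δ ≤ d1 := hδd.trans ((min_le_left _ _).trans (min_le_left _ _))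
    have hδ2 : δ ≤ d2 := hδd.trans ((min_le_left _ _).trans (min_le_right _ _))
    have hX : 0 ≤ Xv (nu k κ) 4 δ := by
      unfold Xv
      have := Real.log_nonneg (x := 1 / δ) (by rw [le_div_iff₀ hδ]; linarith)
      positivity
    have gen : ∀ (G : ℂ → ℂ) (C : ℝ) (g : ℝ → ℝ), 3 ≤ C → C ≤ K → Continuous g → (∀ t, 0 ≤ g t) → (∀ t : ℝ, 0 < t → g t = ‖G (1 / 2 + δ + t * I)‖⁻¹) →
        (∫ t in C..T, ‖G (1 / 2 + δ + t * I)‖⁻¹ ≤ T * Real.exp (C * Xv (nu k κ) 4 δ)) → ∫ t in K..T, g t ≤ T * Real.exp (K * Xv (nu k κ) 4 δ) := by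
      intro G C g hC3 hCK hgc hg0 hg hI
      have e1 : ∫ t in C..T, ‖G (1 / 2 + δ + t * I)‖⁻¹ = ∫ t in C..T, g t := by
        refine intervalIntegral.integral_congr fun t ht => ?_
        rw [Set.uIcc_of_le (by linarith)] at ht
        exact (hg t (by linarith [ht.1])).symm
      rw [e1] at hI
      have s2 : ∫ t in C..T, g t = (∫ t in C..K, g t) + (∫ t in K..T, g t) := by
        rw [intervalIntegral.integral_add_adjacent_intervals (hgc.intervalIntegrable _ _) (hgc.intervalIntegrable _ _)]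
      have s1 : 0 ≤ ∫ t in C..K, g t := intervalIntegral.integral_nonneg hCK fun t _ => hg0 t
      have s3 : T * Real.exp (C * Xv (nu k κ) 4 δ) ≤ T * Real.exp (K * Xv (nu k κ) 4 δ) := by
        refine mul_le_mul_of_nonneg_left (Real.exp_le_exp.2 ?_) (by linarith)
        gcongr
      linarith
    constructor
    · exact gen F C1 (fun t => ‖fip r p E (1 / 2 + δ + t * I)‖) hC1 (by linarith) (hcont δ hδ) (fun t => norm_nonneg _)
        (fun t ht => fip_norm H ht.ne') (m1 T δ (by linarith) hδ hδ1 hLT)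
    · have e2 : ∫ t in (-T)..(-K), ‖fip r p E (1 / 2 + δ + t * I)‖ = ∫ t in K..T, ‖fip r p E (1 / 2 + δ + ((-t : ℝ) : ℂ) * I)‖ := by
        rw [intervalIntegral.integral_comp_neg (fun t : ℝ => ‖fip r p E (1 / 2 + δ + t * I)‖)]
      rw [e2]
      exact gen F' C2 (fun t => ‖fip r p E (1 / 2 + δ + ((-t : ℝ) : ℂ) * I)‖) hC2 (by linarith) ((hcont δ hδ).comp continuous_neg)
        (fun t => norm_nonneg _) (fun t ht => fip_norm' H ht.ne') (m2 T δ (by linarith) hδ hδ2 hLT)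
  · -- tail
    intro δ t hδ hδd ht hLt
    have hδ3 : δ ≤ d3 := hδd.trans ((min_le_right _ _).trans (min_le_left _ _))
    have hδ4 : δ ≤ d4 := hδd.trans ((min_le_right _ _).trans (min_le_right _ _))
    rcases le_or_gt 0 t with h0 | h0
    · rw [abs_of_nonneg h0] at ht ⊢
      rw [fip_norm H (by linarith : 0 < t).ne']
      exact t1 δ t hδ hδ3 ht hLt
    · have e := fip_norm' H (δ := δ) (t := -t) (by linarith : 0 < -t).ne'
      rw [neg_neg] at e
      rw [e]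
      rw [abs_of_neg h0] at ht ⊢
      refine t2 δ (-t) hδ hδ4 ht ?_
      have : Lg (-t) = Lg t := by unfold Pool.Agent.Y23.Lg; rw [abs_neg]
      rw [this]
      exact hLt


end Pool.Agent.N964.GV
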