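import Mathlib
import Pool.Agent.N964.GV.D
import Pool.Agent.N964.GW.Asm

set_option autoImplicit false

/-!
# Project GV: the converse and the engine
-/

namespace Pool.Agent.N964.GV

section

open Complex MeasureTheory Filter Topology Asymptotics Set
open Pool.Agent.N964.GW
open Pool.Agent.N702.GX (cut HH mellin_cut diff_HH)

/-- the converse -/
theorem cvv {k r : ℕ} {A p : ℝ} {F F' E : ℂ → ℂ} {a a' b : ℕ → ℂ} (hL : LW k r A p F F' E a a' b)
    (h : ∀ e : ℝ, 0 < e → (fun x : ℝ => ∑ n ∈ Finset.Icc 1 ⌊x⌋₊, b n) =O[atTop] fun x : ℝ => x ^ (1 / 2 + e))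
    (s : ℂ) (hs : 1 / 2 < s.re) : E s ≠ 0 := by
  have hp1 := hL.hp1
  by_cases hs1 : s = p ∧ r ≠ 0
  · rw [hs1.1]
    exact hL.h1.resolve_left hs1.2
  set e : ℝ := (s.re - 1 / 2) / 2 with he
  have he0 : 0 < e := by rw [he]; linarith
  have hO := h e he0
  set U : Set ℂ := {z : ℂ | 1 / 2 + e < z.re} with hU
  have hUo : IsOpen U := isOpen_lt continuous_const continuous_re
  have hUc : IsPreconnected U := (convex_halfSpace_re_gt _).isPreconnected
  have hsU : s ∈ U := by
    rw [hU, mem_ofPred_eq, he]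
    linarith
  have hH : DifferentiableOn ℂ (HH b) U := fun z hz => (diff_HH b _ hO z hz).differentiableWithinAt
  have hid : EqOn (fun z => E z * HH b z) (fun z => (z - p) ^ r) U := by
    refine AnalyticOnNhd.eqOn_of_preconnected_of_eventuallyEq
      (DifferentiableOn.analyticOnNhd (hL.ent.differentiableOn.mul hH) hUo)
      (DifferentiableOn.analyticOnNhd (by fun_prop) hUo) hUc
      (z₀ := ((2 + e : ℝ) : ℂ)) ?_ ?_
    · rw [hU, mem_ofPred_eq, ofReal_re]
      linarith
    · have hopen : {z : ℂ | 1 + e < z.re} ∈ 𝓝 (((2 + e : ℝ) : ℂ)) := by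
        refine (isOpen_lt continuous_const continuous_re).mem_nhds ?_
        rw [mem_ofPred_eq, ofReal_re]
        linarith
      filter_upwards [hopen] with z hz
      have hz1 : 1 < z.re := by
        have : 1 + e < z.re := hz
        linarith
      have hzne : z ≠ p := by
        rintro rfl
        rw [Complex.ofReal_re] at hz1
        linarith
      have hser : LSeries b z = HH b z := by
        unfold HH
        rw [mellin_cut]
        refine LSeries_eq_mul_integral b (r := 1 / 2 + e) (by linarith) ?_ (hL.sb z hz1) ?_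
        · have : 1 + e < z.re := hz
          linarith
        · have h2 := hO.comp_tendsto tendsto_natCast_atTop_atTop
          refine IsBigO.congr' h2 ?_ ?_
          · refine Eventually.of_forall fun n => ?_
            simp
          · refine Eventually.of_forall fun n => ?_
            simp
      rw [← hser, hL.hE z hzne, mul_assoc, hL.hb z hz1, mul_one]
  have h1 := hid hsU
  simp only at h1
  intro hE0
  rw [hE0, zero_mul] at h1
  have h2 : s - p ≠ 0 ∨ r = 0 := by
    by_cases hr : r = 0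
    · exact Or.inr hr
    · left
      intro h
      exact hs1 ⟨sub_eq_zero.1 h, hr⟩
  rcases h2 with h2 | h2
  · exact pow_ne_zero r h2 h1.symm
  · rw [h2, pow_zero] at h1
    exact zero_ne_one h1


end

open Complex
open Pool.Agent.N964.GX (LL)
open Pool.Agent.N964.GW

lemma ram_sh {k : ℕ} {a : ℕ → ℂ} (κ : ℝ) (h0 : a 0 = 0) (h : ∀ n : ℕ, ‖a n‖ ≤ k * ArithmeticFunction.vonMangoldt n)
    (n : ℕ) : ‖sh κ a n‖ ≤ k * ArithmeticFunction.vonMangoldt n * (n : ℝ) ^ (-κ) := by
  unfold Pool.Agent.N964.GW.sh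
  rcases Nat.eq_zero_or_pos n with hn | hn
  · subst hn
    rw [h0]
    simp
  · rw [norm_mul, Complex.norm_natCast_cpow_of_pos hn, Complex.neg_re, Complex.ofReal_re]
    exact mul_le_mul_of_nonneg_right (h n) (by positivity)

theorem engine_v_of (hblk : S_blk) (hfin : S_finv) (hps : S_pstv) (hev : S_ev) {k r : ℕ} {A : ℝ} {lc : ℝ → ℝ}
    {F F' E : ℂ → ℂ} {a a' b : ℕ → ℂ} (H : LL k r A lc F F' E a a' b) {θ : ℝ} (hθ0 : 1 / 2 < θ) (hθ1 : θ < 1) :
    (∀ s : ℂ, θ < s.re → E s ≠ 0) ↔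
      ∃ C : ℝ, ∀ x : ℝ, 3 ≤ x → ‖∑ n ∈ Finset.Icc 1 ⌊x⌋₊, b n‖ ≤
        x ^ θ * Real.exp (C * Qv (k * (1 - θ) / (θ + k * (1 - θ))) 4 x) := by
  obtain ⟨κ, hκ⟩ : ∃ κ : ℝ, κ = θ - 1 / 2 := ⟨_, rfl⟩
  have hκ0 : 0 < κ := by linarith
  have hκ1 : κ < 1 / 2 := by linarith
  obtain ⟨A', hW⟩ := lw_of (Pool.Agent.N344.GWC.cq_of Pool.Agent.N608.GXA0.res Pool.Agent.N862.GW.pos
      Pool.Agent.N263.GW.bd Pool.Agent.N749.GWZ.zero)
    (Pool.Agent.N186.GW.ledge_of Pool.Agent.N263.GW.bd Pool.Agent.N499.GWL.left)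
    (Pool.Agent.N413.GWRE.redge_of Pool.Agent.N263.GW.bdr primq)
    Pool.Agent.N971.GWSH.shb H hκ0.le hκ1
  have hk := H.hk
  have hk1 : (1 : ℝ) ≤ k := by exact_mod_cast hk
  have hν := nu_pos hk hκ0.le hκ1
  have hE : nu k κ / (1 + nu k κ) = k * (1 - θ) / (θ + k * (1 - θ)) := by
    unfold nu
    have e1 : (1 / 2 - κ : ℝ) = 1 - θ := by linarith
    have e2 : (1 / 2 + κ : ℝ) = θ := by linarith
    have h3 : 0 < θ := by linarith
    have h4 : 0 < 1 - θ := by linarith
    rw [e1, e2]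
    have h5 : 0 < θ + k * (1 - θ) := by positivity
    field_simp
  have hE0 : 0 < nu k κ / (1 + nu k κ) := by positivity
  have hE1 : nu k κ / (1 + nu k κ) < 1 := by
    rw [div_lt_one (by linarith)]
    linarith
  have h0 : a 0 = 0 := H.good.ha1 0 (by norm_num)
  have h0' : a' 0 = 0 := H.good'.ha1 0 (by norm_num)
  have e2 : (1 / 2 + κ : ℝ) = θ := by linarith
  rw [← hE, ← e2, ← hps κ _ 4 b hκ0.le hκ1.le hE0 hE1 (by norm_num)]
  constructor
  · intro h
    obtain ⟨C, _, hC⟩ := dirv hblk hfin hW hκ0 hκ1 (ram_sh κ h0 H.ram) (ram_sh κ h0' H.ram') (fun s hs =>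
      h _ (by rw [Complex.add_re, Complex.ofReal_re]; linarith))
    exact ⟨C, hC⟩
  · intro h s hs
    have h1 := hev _ 4 (sh κ b) hE0 hE1 (by norm_num) h
    have := cvv hW h1 (s - κ) (by rw [Complex.sub_re, Complex.ofReal_re]; linarith)
    simpa using this

end Pool.Agent.N964.GV
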