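import Mathlib
import Pool.Agent.N964.GX.EK7
import Pool.Agent.N964.GX.EK3

set_option autoImplicit false

/-!
# Project GV: instances of the theorem for half-planes
-/

namespace Pool.Agent.N964.GV

open Complex NumberField
open Pool.Agent.N964.GX (LL Nice coI IsInv IsLF ray_all ray1_all inv_unique)
open Pool.Agent.R362.HL (rayPole)

/-- the theorem for half-planes with the exponent `W k θ x` -/
def Eng (W : ℕ → ℝ → ℝ → ℝ) : Prop := ∀ (k r : ℕ) (A : ℝ) (lc : ℝ → ℝ) (F F' E : ℂ → ℂ) (a a' b : ℕ → ℂ),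
  LL k r A lc F F' E a a' b → ∀ θ : ℝ, 1 / 2 ≤ θ → θ < 1 → ((∀ s : ℂ, θ < s.re → E s ≠ 0) ↔
    ∃ C : ℝ, ∀ x : ℝ, 3 ≤ x → ‖∑ n ∈ Finset.Icc 1 ⌊x⌋₊, b n‖ ≤ x ^ θ * Real.exp (C * W k θ x))

/-- for entire functions in the class -/
theorem nice_half {W : ℕ → ℝ → ℝ → ℝ} (hW : Eng W) {k : ℕ} {F : ℂ → ℂ} (h : Nice k F) {b : ℕ → ℂ}
    (hb : ∀ s : ℂ, 1 < s.re → LSeriesSummable b s ∧ F s * LSeries b s = 1) {θ : ℝ} (h0 : 1 / 2 ≤ θ) (h1 : θ < 1) :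
    (∀ s : ℂ, θ < s.re → F s ≠ 0) ↔
      ∃ C : ℝ, ∀ x : ℝ, 3 ≤ x → ‖∑ n ∈ Finset.Icc 1 ⌊x⌋₊, b n‖ ≤ x ^ θ * Real.exp (C * W k θ x) := by
  obtain ⟨⟨A, lc, F', a, a', b0, H⟩, -⟩ := h
  have H' : LL k 0 A lc F F' F a a' b :=
    { H with
      sb := fun s h1 => (hb s h1).1
      hb := fun s h1 => (hb s h1).2 }
  exact hW _ _ _ _ _ _ _ _ _ _ H' θ h0 h1

variable {K : Type} [Field K] [NumberField K]

lemma uniq_off {F G : ℂ → ℂ} (hF : ∀ s : ℂ, s ≠ 1 → DifferentiableAt ℂ F s) (hG : ∀ s : ℂ, s ≠ 1 → DifferentiableAt ℂ G s)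
    (h : ∀ s : ℂ, 1 < s.re → F s = G s) : ∀ s : ℂ, s ≠ 1 → F s = G s := by
  have ho : IsOpen ({1}ᶜ : Set ℂ) := isOpen_compl_singleton
  have h1 : AnalyticOnNhd ℂ F ({1}ᶜ : Set ℂ) :=
    DifferentiableOn.analyticOnNhd (fun z hz => (hF z hz).differentiableWithinAt) ho
  have h2 : AnalyticOnNhd ℂ G ({1}ᶜ : Set ℂ) :=
    DifferentiableOn.analyticOnNhd (fun z hz => (hG z hz).differentiableWithinAt) ho
  have hc : IsPreconnected ({1}ᶜ : Set ℂ) :=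
    (isConnected_compl_singleton_of_one_lt_rank (by rw [Complex.rank_real_complex]; norm_num) 1).isPreconnected
  have h3m : (3 : ℂ) ∈ ({1}ᶜ : Set ℂ) := by simp
  have h3 : F =ᶠ[nhds (3 : ℂ)] G := by
    have hmem : {s : ℂ | 1 < s.re} ∈ nhds (3 : ℂ) := by
      refine (isOpen_lt continuous_const Complex.continuous_re).mem_nhds ?_
      show (1 : ℝ) < ((3 : ℂ)).re
      rw [show ((3 : ℂ)).re = 3 by norm_num]
      norm_num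
    filter_upwards [hmem] with z hz
    exact h z hz
  intro s hs
  exact h1.eqOn_of_preconnected_of_eventuallyEq h2 hc h3m h3 hs

/-- for primitive ray class characters -/
theorem ray_half {W : ℕ → ℝ → ℝ → ℝ} (hW : Eng W) {𝔣 : Ideal (𝓞 K)} {ψ : Ideal (𝓞 K) →*₀ ℂ}
    (hψ : Pool.Agent.Y773.G.IsPrimChar K 𝔣 ψ) {F : ℂ → ℂ} (hF : ∀ s : ℂ, s ≠ 1 → DifferentiableAt ℂ F s)
    (hFs : ∀ s : ℂ, 1 < s.re → F s = LSeries (coI ψ) s) {b : ℕ → ℂ} (hb : IsInv (coI ψ) b) {θ : ℝ} (h0 : 1 / 2 ≤ θ)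
    (h1 : θ < 1) : (∀ s : ℂ, θ < s.re → s.re < 1 → F s ≠ 0) ↔
      ∃ C : ℝ, ∀ x : ℝ, 3 ≤ x → ‖∑ n ∈ Finset.Icc 1 ⌊x⌋₊, b n‖ ≤
        x ^ θ * Real.exp (C * W (Module.finrank ℚ K) θ x) := by
  have hlam1 : coI ψ 1 = 1 := Pool.Agent.N814.GXR.coI_one ψ
  obtain ⟨r, A, lc, F0, F', E, a, a', b0, H, hser, hinv, hnz⟩ : ∃ (r : ℕ) (A : ℝ) (lc : ℝ → ℝ) (F0 F' E : ℂ → ℂ)
      (a a' b0 : ℕ → ℂ), LL (Module.finrank ℚ K) r A lc F0 F' E a a' b0 ∧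
      (∀ s : ℂ, 1 < s.re → F0 s = LSeries (coI ψ) s) ∧ IsInv (coI ψ) b0 ∧ (∀ s : ℂ, 1 ≤ s.re → E s ≠ 0) := by
    by_cases h𝔣 : 𝔣 = ⊤
    · subst h𝔣
      obtain ⟨A, lc, F0, F', E, a, a', b0, H, hLF, hls, hle, hinv, hnz, hsym⟩ := ray1_all K ψ hψ
      exact ⟨_, A, lc, F0, F', E, a, a', b0, H, hle, hinv, hnz⟩
    · obtain ⟨A, lc, F0, F', a, a', b0, H, hLI, hsum, hser, hinv, hnz, hsym⟩ := ray_all K 𝔣 ψ h𝔣 hψ
      exact ⟨_, A, lc, F0, F', F0, a, a', b0, H, hser, hinv, hnz⟩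
  have heq := inv_unique hlam1 hb hinv
  have hsum : ∀ x : ℝ, ∑ n ∈ Finset.Icc 1 ⌊x⌋₊, b n = ∑ n ∈ Finset.Icc 1 ⌊x⌋₊, b0 n := by
    intro x
    refine Finset.sum_congr rfl fun n hn => ?_
    rw [Finset.mem_Icc] at hn
    exact heq n hn.1
  simp_rw [hsum]
  rw [← hW _ _ _ _ _ _ _ _ _ _ H θ h0 h1]
  have hF0 : ∀ s : ℂ, s ≠ 1 → DifferentiableAt ℂ F0 s := by
    intro s hs
    have e1 : (fun z => E z / (z - 1) ^ r) =ᶠ[nhds s] F0 := by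
      filter_upwards [isOpen_ne.mem_nhds hs] with z hz
      rw [H.hE z hz]
      have : (z - 1) ^ r ≠ 0 := pow_ne_zero _ (sub_ne_zero.2 hz)
      field_simp
    refine DifferentiableAt.congr_of_eventuallyEq ?_ e1.symm
    exact (H.ent s).div ((by fun_prop : Differentiable ℂ fun z : ℂ => (z - 1) ^ r) s) (pow_ne_zero _ (sub_ne_zero.2 hs))
  have hFF := uniq_off hF hF0 (fun s hs => by rw [hFs s hs, hser s hs])
  have hs1 : ∀ s : ℂ, s.re < 1 → s ≠ 1 := fun s h hh => by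
    rw [hh, Complex.one_re] at h
    exact lt_irrefl _ h
  constructor
  · intro h s hs
    rcases lt_or_ge s.re 1 with h2 | h2
    · rw [H.hE s (hs1 s h2), ← hFF s (hs1 s h2)]
      exact mul_ne_zero (pow_ne_zero _ (sub_ne_zero.2 (hs1 s h2))) (h s hs h2)
    · exact hnz s h2
  · intro h s hs h2 h3
    refine h s hs ?_
    rw [H.hE s (hs1 s h2), ← hFF s (hs1 s h2), h3, mul_zero]

end Pool.Agent.N964.GV
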