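import Mathlib
import Pool.Agent.N964.GV.Fin
import Pool.Agent.N964.GV.Inst

set_option autoImplicit false

/-!
# Project GV: the engine for all half-planes
-/

namespace Pool.Agent.N964.GV

open Pool.Agent.N964.GX (Qk)

/-- the exponent for an L-function of degree `k` without zeros right of `θ` -/
noncomputable def Wt (k : ℕ) (θ x : ℝ) : ℝ :=
  if θ = 1 / 2 then Real.log x ^ (k / (k + 1) : ℝ) / Real.log (Real.log x)
  else Real.log x ^ (k * (1 - θ) / (θ + k * (1 - θ))) * Real.log (Real.log x) ^ 4

theorem eng_of (hblk : S_blk) (hfin : S_finv) (hps : S_pstv) (hev : S_ev) : Eng Wt := by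
  intro k r A lc F F' E a a' b H θ h0 h1
  by_cases h : θ = 1 / 2
  · have e : ∀ x : ℝ, Wt k θ x = Qk k x := by
      intro x
      unfold Wt
      rw [if_pos h]
      rfl
    simp_rw [e]
    exact Pool.Agent.N964.GW.engine_half H h0 h1
  · have e : ∀ x : ℝ, Wt k θ x = Qv (k * (1 - θ) / (θ + k * (1 - θ))) 4 x := by
      intro x
      unfold Wt Qv
      rw [if_neg h]
      congr 1
      norm_cast
    simp_rw [e]
    exact engine_v_of hblk hfin hps hev H (lt_of_le_of_ne h0 (Ne.symm h)) h1

end Pool.Agent.N964.GV
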