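import Mathlib
import Pool.Agent.N964.GV.Stm

set_option autoImplicit false

/-!
# Project GV, part B: the terms of the sum over the levels
-/

namespace Pool.Agent.N964.GV

open Real

theorem num : S_num := by
  intro k κ B hk hκ hB
  have hk1 : (1 : ℝ) ≤ k := by exact_mod_cast hk
  have hB0 : 0 < B := by linarith
  refine ⟨(3 * k + 1) + ((2 * k + 1) + Real.exp (2 * k + 1) * B), Real.exp (-(Real.exp 1 * 3 ^ k * B + 2)), by positivity,
    Real.exp_pos _, ?_, ?_⟩
  · have h1 : Real.exp (-(Real.exp 1 * 3 ^ k * B + 2)) ≤ Real.exp (-2) := by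
      apply Real.exp_le_exp.2
      have : 0 < Real.exp 1 * 3 ^ k * B := by positivity
      linarith
    have h2 : (4 : ℝ) ≤ Real.exp 2 := by
      have h3 := Real.add_one_le_exp (1 : ℝ)
      have h4 : Real.exp 2 = Real.exp 1 * Real.exp 1 := by rw [← Real.exp_add]; norm_num
      rw [h4]
      nlinarith
    refine h1.trans ?_
    rw [Real.exp_neg, inv_eq_one_div]
    exact one_div_le_one_div_of_le (by norm_num) h2
  · intro δ τ y V hδ hδ0 hV hVτ hy hyp
    set L := Real.log (1 / δ) with hLdef
    have hL0 : Real.exp 1 * 3 ^ k * B + 2 ≤ L := by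
      have h1 : Real.log δ ≤ -(Real.exp 1 * 3 ^ k * B + 2) := by
        have := Real.log_le_log hδ hδ0
        rwa [Real.log_exp] at this
      have h2 : L = -Real.log δ := by rw [hLdef, one_div, Real.log_inv]
      rw [h2]
      linarith
    have hpos : 0 < Real.exp 1 * 3 ^ k * B := by positivity
    have hL2 : 2 ≤ L := by linarith
    have hLp : 0 < L := by linarith
    have hv1 : (1 : ℝ) ≤ V := by exact_mod_cast hV
    have hv0 : (0 : ℝ) < V := by linarith
    have hτ : 0 < τ := by linarith
    have hy0 : 0 < y := by linarith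
    have hY : y ^ (-(2 * κ)) = (y ^ (2 * κ))⁻¹ := Real.rpow_neg hy0.le _
    have hYp : 0 < y ^ (2 * κ) := Real.rpow_pos_of_pos hy0 _
    have hY1 : 1 ≤ y ^ (2 * κ) := Real.one_le_rpow hy (by linarith)
    have hE : Real.exp ((3 * k + 1) * L) ≤ Real.exp (((3 * k + 1) + ((2 * k + 1) + Real.exp (2 * k + 1) * B)) * L ^ 2) := by
      apply Real.exp_le_exp.2
      have h1 : L ≤ L ^ 2 := by nlinarith
      have h2 : 0 ≤ ((2 * k + 1) + Real.exp (2 * k + 1) * B) * L ^ 2 := by positivity
      have h3 : (3 * (k : ℝ) + 1) * L ≤ (3 * k + 1) * L ^ 2 := mul_le_mul_of_nonneg_left h1 (by positivity)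
      linarith
    have hApos : 0 < 1 + ((V : ℝ) + 1) / (τ * δ) := by positivity
    rcases le_or_gt (V : ℝ) (δ * τ) with hc | hc
    · -- case 1
      have hA : Real.log (1 + ((V : ℝ) + 1) / (τ * δ)) ≤ 2 := by
        have h1 := Real.log_le_sub_one_of_pos hApos
        have h2 : ((V : ℝ) + 1) / (τ * δ) ≤ 2 := by
          rw [div_le_iff₀ (by positivity)]
          nlinarith
        linarith
      have h1 : Real.exp (k * ((V : ℝ) + 1) * Real.log (1 + ((V : ℝ) + 1) / (τ * δ)) + ((V : ℝ) + 1)) ≤
          Real.exp (2 * k + 1) * Real.exp (2 * k + 1) ^ V := by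
        rw [← Real.exp_nat_mul, ← Real.exp_add]
        apply Real.exp_le_exp.2
        have : (k : ℝ) * ((V : ℝ) + 1) * Real.log (1 + ((V : ℝ) + 1) / (τ * δ)) ≤ k * ((V : ℝ) + 1) * 2 :=
          mul_le_mul_of_nonneg_left hA (by positivity)
        nlinarith
      have h2 : (B * L ^ 2 * y ^ (-(2 * κ)) / V) ^ V ≤ (B * L ^ 2 / V) ^ V := by
        apply pow_le_pow_left₀ (by positivity)
        apply div_le_div_of_nonneg_right _ hv0.le
        rw [hY]
        have : (y ^ (2 * κ))⁻¹ ≤ 1 := inv_le_one_of_one_le₀ hY1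
        have h3 : 0 ≤ B * L ^ 2 := by positivity
        nlinarith
      have h3 : Real.exp (2 * k + 1) ^ V * (B * L ^ 2 / V) ^ V ≤ Real.exp (Real.exp (2 * k + 1) * B * L ^ 2) := by
        rw [← mul_pow]
        have h4 : Real.exp (2 * k + 1) * (B * L ^ 2 / V) ≤ Real.exp (Real.exp (2 * k + 1) * B * L ^ 2 / V) := by
          have := Real.add_one_le_exp (Real.exp (2 * k + 1) * B * L ^ 2 / V)
          have h5 : Real.exp (2 * k + 1) * (B * L ^ 2 / V) = Real.exp (2 * k + 1) * B * L ^ 2 / V := by ring
          rw [h5]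
          linarith
        refine (pow_le_pow_left₀ (by positivity) h4 V).trans (le_of_eq ?_)
        rw [← Real.exp_nat_mul]
        congr 1
        field_simp
      calc _ ≤ (Real.exp (2 * k + 1) * Real.exp (2 * k + 1) ^ V) * (B * L ^ 2 / V) ^ V :=
            mul_le_mul h1 h2 (by positivity) (by positivity)
        _ = Real.exp (2 * k + 1) * (Real.exp (2 * k + 1) ^ V * (B * L ^ 2 / V) ^ V) := by ring
        _ ≤ Real.exp (2 * k + 1) * Real.exp (Real.exp (2 * k + 1) * B * L ^ 2) :=
            mul_le_mul_of_nonneg_left h3 (Real.exp_pos _).le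
        _ ≤ _ := by
            rw [← Real.exp_add]
            apply Real.exp_le_exp.2
            have h5 : 1 ≤ L ^ 2 := by nlinarith
            have h6 : (2 * (k : ℝ) + 1) * 1 ≤ (2 * k + 1) * L ^ 2 := mul_le_mul_of_nonneg_left h5 (by positivity)
            have h7 : 0 ≤ (3 * (k : ℝ) + 1) * L ^ 2 := by positivity
            nlinarith
    · -- case 2
      set u : ℝ := V / τ with hu
      have hu0 : 0 < u := by positivity
      have hu1 : u ≤ 1 := by rw [hu, div_le_one hτ]; exact hVτ
      have hδu : δ ≤ u := by rw [hu, le_div_iff₀ hτ]; exact hc.le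
      have hle : 1 + ((V : ℝ) + 1) / (τ * δ) ≤ 3 * u / δ := by
        have h1 : ((V : ℝ) + 1) / (τ * δ) ≤ 2 * u / δ := by
          rw [hu, div_le_div_iff₀ (by positivity) hδ]
          have : 2 * ((V : ℝ) / τ) * (τ * δ) = 2 * V * δ := by field_simp
          rw [this]
          nlinarith
        have h2 : 1 ≤ u / δ := by rw [one_le_div hδ]; exact hδu
        have h3 : 3 * u / δ = u / δ + 2 * u / δ := by ring
        linarith
      have hA : Real.log (1 + ((V : ℝ) + 1) / (τ * δ)) ≤ Real.log (3 * u / δ) := Real.log_le_log hApos hle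
      have hA2 : Real.log (3 * u / δ) ≤ 3 * L := by
        have h1 : Real.log (3 * u / δ) ≤ Real.log (3 * (1 / δ)) := by
          apply Real.log_le_log (by positivity)
          rw [div_le_iff₀ hδ]
          have : 3 * (1 / δ) * δ = 3 := by field_simp
          rw [this]
          linarith
        rw [Real.log_mul (by norm_num) (by positivity)] at h1
        have h2 : Real.log 3 ≤ 2 := by
          have := Real.log_le_sub_one_of_pos (show (0 : ℝ) < 3 by norm_num)
          linarith
        linarith
      have hex : Real.exp (k * ((V : ℝ) + 1) * Real.log (1 + ((V : ℝ) + 1) / (τ * δ)) + ((V : ℝ) + 1)) ≤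
          Real.exp (3 * k * L + 1) * ((3 * u / δ) ^ k * Real.exp 1) ^ V := by
        have h1 : ((3 * u / δ) ^ k * Real.exp 1) ^ V = Real.exp (V * (k * Real.log (3 * u / δ) + 1)) := by
          rw [Real.exp_nat_mul, Real.exp_add, Real.exp_nat_mul, Real.exp_log (by positivity)]
        rw [h1, ← Real.exp_add]
        apply Real.exp_le_exp.2
        have h2 : (k : ℝ) * ((V : ℝ) + 1) * Real.log (1 + ((V : ℝ) + 1) / (τ * δ)) ≤
            k * ((V : ℝ) + 1) * Real.log (3 * u / δ) := mul_le_mul_of_nonneg_left hA (by positivity)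
        have h3 : (k : ℝ) * Real.log (3 * u / δ) ≤ k * (3 * L) := mul_le_mul_of_nonneg_left hA2 (by positivity)
        nlinarith
      have hpw : (B * L ^ 2 * y ^ (-(2 * κ)) / V) ^ V ≤ (B * δ ^ k / (L * u)) ^ V := by
        apply pow_le_pow_left₀ (by positivity)
        rw [hY]
        have h1 : (y ^ (2 * κ))⁻¹ ≤ τ * δ ^ k / L ^ 3 := by
          rw [inv_le_comm₀ hYp (by positivity)]
          refine le_trans (le_of_eq ?_) hyp
          rw [one_div, inv_pow, inv_div]
          field_simp
        have h2 : B * L ^ 2 * (y ^ (2 * κ))⁻¹ / V ≤ B * L ^ 2 * (τ * δ ^ k / L ^ 3) / V := by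
          apply div_le_div_of_nonneg_right _ hv0.le
          exact mul_le_mul_of_nonneg_left h1 (by positivity)
        refine h2.trans (le_of_eq ?_)
        rw [hu]
        field_simp
      have hfin : ((3 * u / δ) ^ k * Real.exp 1) * (B * δ ^ k / (L * u)) ≤ 1 := by
        have h1 : ((3 * u / δ) ^ k * Real.exp 1) * (B * δ ^ k / (L * u)) = (Real.exp 1 * 3 ^ k * B) * (u ^ k / u) / L := by
          rw [div_pow, mul_pow]
          field_simp
        rw [h1, div_le_one hLp]
        have h2 : u ^ k / u ≤ 1 := by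
          rw [div_le_one hu0]
          exact (pow_le_pow_of_le_one hu0.le hu1 hk).trans (by rw [pow_one])
        have h3 : (Real.exp 1 * 3 ^ k * B) * (u ^ k / u) ≤ (Real.exp 1 * 3 ^ k * B) * 1 :=
          mul_le_mul_of_nonneg_left h2 hpos.le
        linarith
      calc _ ≤ (Real.exp (3 * k * L + 1) * ((3 * u / δ) ^ k * Real.exp 1) ^ V) * (B * δ ^ k / (L * u)) ^ V :=
            mul_le_mul hex hpw (by positivity) (by positivity)
        _ = Real.exp (3 * k * L + 1) * (((3 * u / δ) ^ k * Real.exp 1) * (B * δ ^ k / (L * u))) ^ V := by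
            rw [mul_pow]; ring
        _ ≤ Real.exp (3 * k * L + 1) * 1 := by
            apply mul_le_mul_of_nonneg_left _ (Real.exp_pos _).le
            exact pow_le_one₀ (by positivity) hfin
        _ ≤ Real.exp ((3 * k + 1) * L) := by
            rw [mul_one]
            apply Real.exp_le_exp.2
            nlinarith
        _ ≤ _ := hE

end Pool.Agent.N964.GV
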