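import Mathlib
import Pool.Agent.N964.GV.Inst
import Pool.Agent.N964.GW.Zeta

set_option autoImplicit false

/-!
# Project GV: the zeta function
-/

namespace Pool.Agent.N964.GV

open Complex NumberField
open Pool.Agent.N964.GX (coI)
open Pool.Agent.N964.GW (triv triv_prim coI_triv inv_mu)

theorem zeta_W {W : ℕ → ℝ → ℝ → ℝ} (hW : Eng W) {θ : ℝ} (h0 : 1 / 2 ≤ θ) (h1 : θ < 1) :
    (∀ s : ℂ, θ < s.re → s.re < 1 → riemannZeta s ≠ 0) ↔
      ∃ C : ℝ, ∀ x : ℝ, 3 ≤ x → ‖∑ n ∈ Finset.Icc 1 ⌊x⌋₊, ((ArithmeticFunction.moebius n : ℤ) : ℂ)‖ ≤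
        x ^ θ * Real.exp (C * W 1 θ x) := by
  have h := ray_half hW triv_prim (F := riemannZeta) (fun s hs => differentiableAt_riemannZeta hs) (fun s hs => by
    rw [← LSeries_one_eq_riemannZeta hs]
    refine LSeries_congr (fun {n} hn => ?_) s
    rw [coI_triv hn]
    rfl) inv_mu h0 h1
  have hfr : Module.finrank ℚ ℚ = 1 := Module.finrank_self ℚ
  rw [hfr] at h
  exact h

end Pool.Agent.N964.GV
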