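import Mathlib
import Pool.Agent.N964.GV.Eng0
import Pool.Agent.N964.GV.Zt
import Pool.Agent.N964.GV.Num
import Pool.Agent.N279.GV.Var
import Pool.Agent.N490.GV.F
import Pool.Agent.N645.GV.Blk
import Pool.Agent.N424.GV.D
import Pool.Agent.N424.GV.E

set_option autoImplicit false

/-!
# Project GV: the engine for all half-planes
-/

namespace Pool.Agent.N964.GV

theorem eng : Eng Wt :=
  eng_of (Pool.Agent.N645.GV.blk_of Pool.Agent.N279.GV.var num) Pool.Agent.N424.GVD.finv Pool.Agent.N424.GV.pstv
    Pool.Agent.N490.GV.F.ev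

end Pool.Agent.N964.GV
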