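import Mathlib
import Pool.Agent.N964.GV.Eng0
import Pool.Agent.N424.GV.E

set_option autoImplicit false

/-!
# Project GV: from the sums of `b(n)` to the sums of `√n b(n)`
-/

namespace Pool.Agent.N964.GV

open Pool.Agent.N964.GX (Qk)

lemma tele (N : ℕ) (hN : 1 ≤ N) :
    ∑ n ∈ Finset.Ico 1 N, (Real.sqrt ((n + 1 : ℕ) : ℝ) - Real.sqrt (n : ℝ)) = Real.sqrt N - 1 := by
  induction N, hN using Nat.le_induction with
  | base => simp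
  | succ n hn ih =>
    rw [Finset.sum_Ico_succ_top hn, ih]
    ring

lemma w_up (θ : ℝ) (h0 : 1 / 2 ≤ θ) (N : ℕ) (hN : 1 ≤ N) :
    |Real.sqrt (N : ℝ)| * (N : ℝ) ^ θ + ∑ n ∈ Finset.Ico 1 N,
      |Real.sqrt ((n + 1 : ℕ) : ℝ) - Real.sqrt (n : ℝ)| * (n : ℝ) ^ θ ≤ 2 * (N : ℝ) ^ (θ + 1 / 2) := by
  have hN0 : (0 : ℝ) < N := by exact_mod_cast hN
  have e1 : Real.sqrt (N : ℝ) * (N : ℝ) ^ θ = (N : ℝ) ^ (θ + 1 / 2) := by
    rw [Real.sqrt_eq_rpow, ← Real.rpow_add hN0]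
    congr 1
    ring
  have e2 : ∑ n ∈ Finset.Ico 1 N, |Real.sqrt ((n + 1 : ℕ) : ℝ) - Real.sqrt (n : ℝ)| * (n : ℝ) ^ θ ≤
      ∑ n ∈ Finset.Ico 1 N, (Real.sqrt ((n + 1 : ℕ) : ℝ) - Real.sqrt (n : ℝ)) * (N : ℝ) ^ θ := by
    refine Finset.sum_le_sum fun n hn => ?_
    rw [Finset.mem_Ico] at hn
    have h3 : Real.sqrt (n : ℝ) ≤ Real.sqrt ((n + 1 : ℕ) : ℝ) := Real.sqrt_le_sqrt (by push_cast; linarith)
    rw [abs_of_nonneg (by linarith)]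
    refine mul_le_mul_of_nonneg_left (Real.rpow_le_rpow (Nat.cast_nonneg _) ?_ (by linarith)) (by linarith)
    exact_mod_cast hn.2.le
  rw [← Finset.sum_mul, tele N hN] at e2
  rw [abs_of_nonneg (Real.sqrt_nonneg _), e1]
  have e3 : (Real.sqrt N - 1) * (N : ℝ) ^ θ ≤ (N : ℝ) ^ (θ + 1 / 2) := by
    rw [← e1]
    have : 0 ≤ (N : ℝ) ^ θ := by positivity
    nlinarith
  linarith

lemma w_down (θ : ℝ) (h0 : 1 / 2 ≤ θ) (N : ℕ) (hN : 1 ≤ N) :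
    |(Real.sqrt (N : ℝ))⁻¹| * (N : ℝ) ^ (θ + 1 / 2) + ∑ n ∈ Finset.Ico 1 N,
      |(Real.sqrt ((n + 1 : ℕ) : ℝ))⁻¹ - (Real.sqrt (n : ℝ))⁻¹| * (n : ℝ) ^ (θ + 1 / 2) ≤ 2 * (N : ℝ) ^ θ := by
  have hN0 : (0 : ℝ) < N := by exact_mod_cast hN
  have e0 : ∀ m : ℕ, 1 ≤ m → (m : ℝ) ^ (θ + 1 / 2) = Real.sqrt m * (m : ℝ) ^ θ := by
    intro m hm
    have hm0 : (0 : ℝ) < m := by exact_mod_cast hm
    rw [Real.sqrt_eq_rpow, ← Real.rpow_add hm0]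
    congr 1
    ring
  have hs0 : ∀ m : ℕ, 1 ≤ m → 0 < Real.sqrt (m : ℝ) := fun m hm => Real.sqrt_pos.2 (by exact_mod_cast hm)
  have e1 : |(Real.sqrt (N : ℝ))⁻¹| * (N : ℝ) ^ (θ + 1 / 2) = (N : ℝ) ^ θ := by
    rw [abs_of_nonneg (by positivity), e0 N hN, ← mul_assoc, inv_mul_cancel₀ (hs0 N hN).ne', one_mul]
  have e2 : ∑ n ∈ Finset.Ico 1 N, |(Real.sqrt ((n + 1 : ℕ) : ℝ))⁻¹ - (Real.sqrt (n : ℝ))⁻¹| * (n : ℝ) ^ (θ + 1 / 2) ≤
      ∑ n ∈ Finset.Ico 1 N, (Real.sqrt ((n + 1 : ℕ) : ℝ) - Real.sqrt (n : ℝ)) * (N : ℝ) ^ (θ - 1 / 2) := by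
    refine Finset.sum_le_sum fun n hn => ?_
    rw [Finset.mem_Ico] at hn
    have hn0 : (0 : ℝ) < n := by exact_mod_cast hn.1
    have ha := hs0 n hn.1
    have hb := hs0 (n + 1) (by omega)
    have h3 : Real.sqrt (n : ℝ) ≤ Real.sqrt ((n + 1 : ℕ) : ℝ) := Real.sqrt_le_sqrt (by push_cast; linarith)
    have h4 : |(Real.sqrt ((n + 1 : ℕ) : ℝ))⁻¹ - (Real.sqrt (n : ℝ))⁻¹| =
        (Real.sqrt ((n + 1 : ℕ) : ℝ) - Real.sqrt (n : ℝ)) / (Real.sqrt (n : ℝ) * Real.sqrt ((n + 1 : ℕ) : ℝ)) := by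
      rw [abs_sub_comm, abs_of_nonneg (sub_nonneg.2 (inv_anti₀ ha h3))]
      field_simp
    have h5 : (n : ℝ) ^ θ = Real.sqrt n * (n : ℝ) ^ (θ - 1 / 2) := by
      rw [Real.sqrt_eq_rpow, ← Real.rpow_add hn0]
      congr 1
      ring
    have h6 : (n : ℝ) ^ (θ - 1 / 2) ≤ (N : ℝ) ^ (θ - 1 / 2) :=
      Real.rpow_le_rpow hn0.le (by exact_mod_cast hn.2.le) (by linarith)
    have h7 : (0 : ℝ) ≤ (n : ℝ) ^ (θ - 1 / 2) := by positivity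
    rw [h4, e0 n hn.1, h5]
    have h8 : (Real.sqrt ((n + 1 : ℕ) : ℝ) - Real.sqrt (n : ℝ)) / (Real.sqrt (n : ℝ) * Real.sqrt ((n + 1 : ℕ) : ℝ)) *
        (Real.sqrt n * (Real.sqrt n * (n : ℝ) ^ (θ - 1 / 2))) =
        (Real.sqrt ((n + 1 : ℕ) : ℝ) - Real.sqrt (n : ℝ)) *
          ((n : ℝ) ^ (θ - 1 / 2) * (Real.sqrt n / Real.sqrt ((n + 1 : ℕ) : ℝ))) := by
      field_simp
    rw [h8]
    have h9 : Real.sqrt n / Real.sqrt ((n + 1 : ℕ) : ℝ) ≤ 1 := (div_le_one hb).2 h3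
    have h10 : 0 ≤ Real.sqrt n / Real.sqrt ((n + 1 : ℕ) : ℝ) := by positivity
    refine mul_le_mul_of_nonneg_left ?_ (by linarith)
    calc (n : ℝ) ^ (θ - 1 / 2) * (Real.sqrt n / Real.sqrt ((n + 1 : ℕ) : ℝ)) ≤ (n : ℝ) ^ (θ - 1 / 2) * 1 :=
          mul_le_mul_of_nonneg_left h9 h7
      _ ≤ _ := by rw [mul_one]; exact h6
  rw [← Finset.sum_mul, tele N hN] at e2
  have e3 : (Real.sqrt N - 1) * (N : ℝ) ^ (θ - 1 / 2) ≤ (N : ℝ) ^ θ := by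
    have h5 : (N : ℝ) ^ θ = Real.sqrt N * (N : ℝ) ^ (θ - 1 / 2) := by
      rw [Real.sqrt_eq_rpow, ← Real.rpow_add hN0]
      congr 1
      ring
    rw [h5]
    have : 0 ≤ (N : ℝ) ^ (θ - 1 / 2) := by positivity
    nlinarith
  rw [e1]
  linarith

theorem half_shift {k : ℕ} (hk : 1 ≤ k) (b : ℕ → ℂ) {θ : ℝ} (h0 : 1 / 2 ≤ θ) (h1 : θ < 1) :
    (∃ C : ℝ, ∀ x : ℝ, 3 ≤ x → ‖∑ n ∈ Finset.Icc 1 ⌊x⌋₊, b n‖ ≤ x ^ θ * Real.exp (C * Wt k θ x)) ↔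
    (∃ C : ℝ, ∀ x : ℝ, 3 ≤ x →
      ‖∑ n ∈ Finset.Icc 1 ⌊x⌋₊, ((Real.sqrt n : ℝ) : ℂ) * b n‖ ≤ x ^ (θ + 1 / 2) * Real.exp (C * Wt k θ x)) := by
  by_cases h : θ = 1 / 2
  · have e : ∀ x : ℝ, Wt k θ x = Qk k x := by
      intro x
      unfold Wt
      rw [if_pos h]
      rfl
    have e1 : ∀ x : ℝ, x ^ (θ + 1 / 2) = x := by
      intro x
      rw [h]
      norm_num
    have e2 : ∀ x : ℝ, x ^ θ = Real.sqrt x := by
      intro x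
      rw [h, Real.sqrt_eq_rpow]
    simp_rw [e, e1, e2]
    exact Pool.Agent.N776.GXPS.ps k hk b
  · have hk0 : (0 : ℝ) ≤ k := Nat.cast_nonneg k
    have hE : (0 : ℝ) ≤ k * (1 - θ) / (θ + k * (1 - θ)) :=
      div_nonneg (mul_nonneg hk0 (by linarith)) (add_nonneg (by linarith) (mul_nonneg hk0 (by linarith)))
    have e : ∀ x : ℝ, Wt k θ x = Qv (k * (1 - θ) / (θ + k * (1 - θ))) 4 x := by
      intro x
      unfold Wt Qv
      rw [if_neg h]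
      congr 1
      norm_cast
    simp_rw [e]
    constructor
    · intro hb
      refine Pool.Agent.N424.GV.gen hE (by norm_num) b (fun n => Real.sqrt n) (fun x => x ^ θ) (fun x => x ^ (θ + 1 / 2))
        ?_ ?_ ?_ ?_ hb
      · intro n hn
        exact Real.one_le_rpow (by exact_mod_cast hn) (by linarith)
      · intro x hx
        exact Real.rpow_le_rpow (Nat.cast_nonneg _) (Nat.floor_le (by linarith)) (by linarith)
      · intro x hx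
        positivity
      · intro N hN
        exact w_up θ h0 N hN
    · intro hb
      have key := Pool.Agent.N424.GV.gen hE (by norm_num) (fun n => ((Real.sqrt n : ℝ) : ℂ) * b n)
        (fun n => (Real.sqrt n)⁻¹) (fun x => x ^ (θ + 1 / 2)) (fun x => x ^ θ) ?_ ?_ ?_ ?_ hb
      · obtain ⟨C, hC⟩ := key
        refine ⟨C, fun x hx => ?_⟩
        have h2 : ∑ n ∈ Finset.Icc 1 ⌊x⌋₊, (((Real.sqrt n)⁻¹ : ℝ) : ℂ) * (((Real.sqrt n : ℝ) : ℂ) * b n) =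
            ∑ n ∈ Finset.Icc 1 ⌊x⌋₊, b n := by
          refine Finset.sum_congr rfl fun n hn => ?_
          rw [Finset.mem_Icc] at hn
          have hn0 : Real.sqrt (n : ℝ) ≠ 0 := (Real.sqrt_pos.2 (by exact_mod_cast hn.1)).ne'
          rw [← mul_assoc, ← Complex.ofReal_mul, inv_mul_cancel₀ hn0, Complex.ofReal_one, one_mul]
        have := hC x hx
        rwa [h2] at this
      · intro n hn
        exact Real.one_le_rpow (by exact_mod_cast hn) (by linarith)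
      · intro x hx
        exact Real.rpow_le_rpow (Nat.cast_nonneg _) (Nat.floor_le (by linarith)) (by linarith)
      · intro x hx
        positivity
      · intro N hN
        exact w_down θ h0 N hN

end Pool.Agent.N964.GV
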